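import Pool.Agent.N976.DI.Def
import Pool.Agent.N976.UE.Def

/-! Energy concentration for the Dirichlet problem: strong solutions. -/

open Set Filter Topology MeasureTheory
open scoped ContDiff InnerProductSpace

set_option autoImplicit false

namespace Pool.Agent.N976.FD

open Pool.Agent.N976.SC Pool.Agent.N976.DI

/-- (G1) The energy in a small ball is bounded by the enstrophy. -/
def S_G1 : Prop := ∃ C : ℝ, 0 < C ∧ ∀ (v : E3 → E3) (δ : ℝ), ContDiff ℝ 1 v →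
  HasCompactSupport v → 0 < δ → ∫ y in Metric.ball (0 : E3) δ, ‖v y‖ ^ 2 ≤ C * δ ^ 2 * dir v

/-- (G2) Dilation and translation of flows. -/
def S_G2 : Prop := ∀ (ι : Type) (ν T : ℝ) (r : ι → E3 → E3) (U : ℝ → E3 → E3),
  0 < ν → (∀ i, ContDiff ℝ ∞ (r i)) → (∀ i y, 1 ≤ ‖y‖ → r i y = 0) →
  (∀ t ∈ Ico 0 T, ∀ y, 1 / 2 ≤ ‖y‖ → U t y = 0) → Flow univ ν T r U →
  ∀ (Ω : Set E3) (x₀ : E3) (ℓ : ℝ), 0 < ℓ → IsOpen Ω → Metric.closedBall x₀ ℓ ⊆ Ω →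
  Flow Ω ν (ℓ ^ 2 * T) (cf x₀ ℓ r) (fun t x => ℓ⁻¹ • U (t / ℓ ^ 2) (ℓ⁻¹ • (x - x₀)))

/-- (G3) Dilation and translation of the energy. -/
def S_G3 : Prop := ∀ (v : E3 → E3) (x₀ : E3) (ℓ δ : ℝ), 0 < ℓ →
  (∫ x in {x : E3 | δ ≤ ‖x - x₀‖}, ‖ℓ⁻¹ • v (ℓ⁻¹ • (x - x₀))‖ ^ 2 =
    ℓ * ∫ y in {y : E3 | δ / ℓ ≤ ‖y‖}, ‖v y‖ ^ 2) ∧
  ∫ x, ‖ℓ⁻¹ • v (ℓ⁻¹ • (x - x₀))‖ ^ 2 = ℓ * ip v v

end Pool.Agent.N976.FD
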