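import Pool.Agent.N976.FD.Def
import Pool.Agent.N976.DI.D34
import Pool.Agent.H772R2.NS.Space1

/-! (G1) The energy in a small ball, (G3) dilation of the energy (helper40). -/

open Set Filter Topology MeasureTheory
open scoped ContDiff InnerProductSpace ENNReal NNReal

set_option autoImplicit false

namespace Pool.Agent.N976.FD

open Pool.Agent.N976.SC Pool.Agent.N976.DI
open Pool.Agent.N976.DI.D34 (int_sc norm_jac_sq)

namespace G13

lemma eLpNorm_two_eq {F : Type} [NormedAddCommGroup F] {μ : Measure E3} {f : E3 → F}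
    (hf : MemLp f 2 μ) : eLpNorm f 2 μ = ENNReal.ofReal (√(∫ x, ‖f x‖ ^ 2 ∂μ)) := by
  rw [hf.eLpNorm_eq_integral_rpow_norm (by norm_num) (by norm_num)]
  congr 1
  rw [Real.sqrt_eq_rpow]
  norm_num

lemma ball_vol {δ : ℝ} (hδ : 0 < δ) :
    (volume (Metric.ball (0 : E3) δ)) ^ (1 / 2 - 1 / 6 : ℝ) =
      ENNReal.ofReal (δ * (volume (Metric.ball (0 : E3) 1)).toReal ^ (1 / 3 : ℝ)) := by
  have hfin : volume (Metric.ball (0 : E3) 1) ≠ ⊤ := measure_ball_lt_top.ne
  rw [Measure.addHaar_ball _ _ hδ.le, finrank_euclideanSpace_fin]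
  conv_lhs => rw [← ENNReal.ofReal_toReal hfin]
  rw [← ENNReal.ofReal_mul (by positivity), ENNReal.ofReal_rpow_of_nonneg (by positivity) (by norm_num)]
  congr 1
  rw [Real.mul_rpow (by positivity) (by positivity)]
  congr 1
  · rw [← Real.rpow_natCast, ← Real.rpow_mul hδ.le]
    norm_num
  · norm_num

end G13

open G13

theorem t_G1 : S_G1 := by
  obtain ⟨C, hC⟩ := H772R2.NS.exists_sobolev
  obtain ⟨K, hK⟩ : ∃ K : ℝ, K = (volume (Metric.ball (0 : E3) 1)).toReal ^ (1 / 3 : ℝ) := ⟨_, rfl⟩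
  have hK0 : 0 ≤ K := by rw [hK]; positivity
  refine ⟨(C * K) ^ 2 + 1, by positivity, ?_⟩
  intro v δ hv hc hδ
  have hd0 : 0 ≤ dir v := by
    unfold dir
    exact integral_nonneg fun x => Finset.sum_nonneg fun i _ => sq_nonneg _
  have hfc : Continuous (fderiv ℝ v) := hv.continuous_fderiv (by simp)
  have hfs : HasCompactSupport (fderiv ℝ v) := hc.fderiv ℝ
  have hvm : MemLp v 2 (volume : Measure E3) := hv.continuous.memLp_of_hasCompactSupport hc
  have hfm : MemLp (fderiv ℝ v) 2 (volume : Measure E3) := hfc.memLp_of_hasCompactSupport hfs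
  obtain ⟨a, ha⟩ : ∃ a : ℝ, a = ∫ y in Metric.ball (0 : E3) δ, ‖v y‖ ^ 2 := ⟨_, rfl⟩
  obtain ⟨b, hb⟩ : ∃ b : ℝ, b = ∫ y, ‖fderiv ℝ v y‖ ^ 2 := ⟨_, rfl⟩
  have ha0 : 0 ≤ a := by rw [ha]; exact integral_nonneg fun x => sq_nonneg _
  have hb0 : 0 ≤ b := by rw [hb]; exact integral_nonneg fun x => sq_nonneg _
  have h1 : eLpNorm v 2 (volume.restrict (Metric.ball (0 : E3) δ)) = ENNReal.ofReal √a := by
    rw [eLpNorm_two_eq (hvm.restrict _), ha]
  have h2 : eLpNorm (fderiv ℝ v) 2 (volume : Measure E3) = ENNReal.ofReal √b := by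
    rw [eLpNorm_two_eq hfm, hb]
  have h3 : eLpNorm v 2 (volume.restrict (Metric.ball (0 : E3) δ)) ≤
      eLpNorm v 6 (volume.restrict (Metric.ball (0 : E3) δ)) *
        (volume.restrict (Metric.ball (0 : E3) δ)) univ ^ (1 / (2 : ℝ≥0∞).toReal - 1 / (6 : ℝ≥0∞).toReal) :=
    eLpNorm_le_eLpNorm_mul_rpow_measure_univ (by norm_num) hv.continuous.aestronglyMeasurable
  have h4 : eLpNorm v 6 (volume.restrict (Metric.ball (0 : E3) δ)) ≤
      C * eLpNorm (fderiv ℝ v) 2 (volume : Measure E3) :=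
    (eLpNorm_mono_measure v Measure.restrict_le_self).trans (hC v hv hc)
  have h5 : (volume.restrict (Metric.ball (0 : E3) δ)) univ ^
      (1 / (2 : ℝ≥0∞).toReal - 1 / (6 : ℝ≥0∞).toReal) = ENNReal.ofReal (δ * K) := by
    rw [Measure.restrict_apply_univ, hK, ← ball_vol hδ]
    norm_num
  rw [h5, h1] at h3
  rw [h2] at h4
  have h6 : ENNReal.ofReal √a ≤ ENNReal.ofReal (C * √b * (δ * K)) := by
    refine h3.trans ((mul_le_mul_left h4 _).trans (le_of_eq ?_))
    rw [ENNReal.ofReal_mul (p := (C : ℝ) * √b) (by positivity), ENNReal.ofReal_mul (p := (C : ℝ)) (by positivity),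
      ENNReal.ofReal_coe_nnreal]
  have h7 : √a ≤ C * √b * (δ * K) := (ENNReal.ofReal_le_ofReal_iff (by positivity)).1 h6
  have h8 : a ≤ (C * K) ^ 2 * δ ^ 2 * b := by
    have h9 := mul_le_mul h7 h7 (Real.sqrt_nonneg _) (by positivity)
    rw [Real.mul_self_sqrt ha0] at h9
    calc a ≤ C * √b * (δ * K) * (C * √b * (δ * K)) := h9
      _ = (C * K) ^ 2 * δ ^ 2 * (√b * √b) := by ring
      _ = _ := by rw [Real.mul_self_sqrt hb0]
  have h9 : b ≤ dir v := by
    rw [hb]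
    unfold dir
    apply integral_mono
    · have h := hfm.integrable_norm_rpow (by norm_num) (by norm_num)
      simpa using h
    · have hcont : Continuous (fun y => ∑ i : Fin 3, ‖fderiv ℝ v y (bv i)‖ ^ 2) := by
        refine continuous_finsetSum _ fun i _ => ?_
        exact ((hfc.clm_apply continuous_const).norm).pow 2
      refine hcont.integrable_of_hasCompactSupport ?_
      refine HasCompactSupport.intro hfs ?_
      intro x hx
      have : fderiv ℝ v x = 0 := image_eq_zero_of_notMem_tsupport hx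
      simp [this]
    · intro x
      simp only
      rw [← norm_jac_sq]
      exact pow_le_pow_left₀ (norm_nonneg _) (H772R2.NS.norm_fderiv_le_jac x) 2
  rw [← ha]
  calc a ≤ (C * K) ^ 2 * δ ^ 2 * b := h8
    _ ≤ (C * K) ^ 2 * δ ^ 2 * dir v := mul_le_mul_of_nonneg_left h9 (by positivity)
    _ ≤ ((C * K) ^ 2 + 1) * δ ^ 2 * dir v := by
        apply mul_le_mul_of_nonneg_right _ hd0
        nlinarith [sq_nonneg δ]

theorem t_G3 : S_G3 := by
  intro v x₀ ℓ δ hℓ
  have hn : ∀ y : E3, ‖ℓ⁻¹ • v y‖ ^ 2 = (ℓ⁻¹) ^ 2 * ‖v y‖ ^ 2 := by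
    intro y
    rw [norm_smul, Real.norm_of_nonneg (by positivity), mul_pow]
  constructor
  · have hm1 : MeasurableSet {x : E3 | δ ≤ ‖x - x₀‖} := by
      apply IsClosed.measurableSet
      exact isClosed_le continuous_const (by fun_prop)
    have hm2 : MeasurableSet {y : E3 | δ / ℓ ≤ ‖y‖} := by
      apply IsClosed.measurableSet
      exact isClosed_le continuous_const continuous_norm
    rw [← integral_indicator hm1, ← integral_indicator hm2]
    have h1 : ∀ x : E3, ({x : E3 | δ ≤ ‖x - x₀‖}.indicator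
        (fun x => ‖ℓ⁻¹ • v (ℓ⁻¹ • (x - x₀))‖ ^ 2)) x =
        (fun y => (ℓ⁻¹) ^ 2 * ({y : E3 | δ / ℓ ≤ ‖y‖}.indicator (fun y => ‖v y‖ ^ 2)) y)
          (ℓ⁻¹ • (x - x₀)) := by
      intro x
      have hiff : δ ≤ ‖x - x₀‖ ↔ δ / ℓ ≤ ‖ℓ⁻¹ • (x - x₀)‖ := by
        rw [norm_smul, norm_inv, Real.norm_of_nonneg hℓ.le, inv_mul_eq_div, div_le_div_iff_of_pos_right hℓ]
      by_cases hx : δ ≤ ‖x - x₀‖
      · have hx' := hiff.1 hx
        simp only
        rw [indicator_of_mem (show x ∈ {x : E3 | δ ≤ ‖x - x₀‖} from hx),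
          indicator_of_mem (show ℓ⁻¹ • (x - x₀) ∈ {y : E3 | δ / ℓ ≤ ‖y‖} from hx'), hn]
      · have hx' := fun h => hx (hiff.2 h)
        simp only
        rw [indicator_of_notMem (show x ∉ {x : E3 | δ ≤ ‖x - x₀‖} from hx),
          indicator_of_notMem (show ℓ⁻¹ • (x - x₀) ∉ {y : E3 | δ / ℓ ≤ ‖y‖} from hx'), mul_zero]
    refine (integral_congr_ae (Eventually.of_forall h1)).trans ?_
    refine (int_sc hℓ x₀ (fun y => (ℓ⁻¹) ^ 2 *
      ({y : E3 | δ / ℓ ≤ ‖y‖}.indicator (fun y => ‖v y‖ ^ 2)) y)).trans ?_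
    rw [integral_const_mul]
    field_simp
  · have h1 : ∀ x : E3, ‖ℓ⁻¹ • v (ℓ⁻¹ • (x - x₀))‖ ^ 2 =
        (fun y => (ℓ⁻¹) ^ 2 * ‖v y‖ ^ 2) (ℓ⁻¹ • (x - x₀)) := fun x => hn _
    refine (integral_congr_ae (Eventually.of_forall h1)).trans ?_
    refine (int_sc hℓ x₀ (fun y => (ℓ⁻¹) ^ 2 * ‖v y‖ ^ 2)).trans ?_
    rw [integral_const_mul]
    unfold ip
    simp only [real_inner_self_eq_norm_sq]
    field_simp

end Pool.Agent.N976.FD
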