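import Pool.Agent.N976.FD.Def
import Pool.Agent.N976.DI.D34
import Pool.Agent.N976.UE.Z05

/-! (G2) Dilation and translation of smooth constrained flows (helper40). -/

open Set Filter Topology MeasureTheory
open scoped ContDiff InnerProductSpace

set_option autoImplicit false

namespace Pool.Agent.N976.FD

open Pool.Agent.N976.SC Pool.Agent.N976.DI
open Pool.Agent.N976.DI.D34 (sc hfd fderiv_sc divg_sc adv_sc lap_sc int_sc ip_sc dir_sc)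
open H772R2.NS (jac IsTest L2V L2M H1graph M3)

theorem t_G2 : S_G2 := by
  intro ι ν T r U hν hrsm hrout hUout hF Ω x₀ ℓ hℓ hΩ hball
  have hT : 0 < T := hF.T0
  have hℓ2 : 0 < ℓ ^ 2 := by positivity
  have hmap : ∀ t ∈ Ico 0 (ℓ ^ 2 * T), t / ℓ ^ 2 ∈ Ico 0 T := by
    intro t ht
    refine ⟨div_nonneg ht.1 hℓ2.le, ?_⟩
    rw [div_lt_iff₀ hℓ2]
    linarith [ht.2, mul_comm (ℓ ^ 2) T]
  have hsmt : ∀ t ∈ Ico 0 T, ContDiff ℝ ∞ (U t) := by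
    intro t ht
    rw [← contDiffOn_univ]
    have h1 : ContDiffOn ℝ ∞ (fun x : E3 => ((t, x) : ℝ × E3)) univ :=
      (contDiff_const.prodMk contDiff_id).contDiffOn
    exact hF.sm.comp h1 (fun x _ => ⟨ht, mem_univ _⟩)
  have hdf : ∀ t ∈ Ico 0 T, Differentiable ℝ (U t) := fun t ht =>
    (hsmt t ht).differentiable (by simp)
  obtain ⟨V, hV⟩ : ∃ V : ℝ → E3 → E3, V = fun t x => ℓ⁻¹ • U (t / ℓ ^ 2) (ℓ⁻¹ • (x - x₀)) :=
    ⟨_, rfl⟩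
  rw [← hV]
  have hVsc : ∀ t, V t = sc x₀ ℓ (U (t / ℓ ^ 2)) := fun t => by rw [hV]; rfl
  have hdt : ∀ t ∈ Ico 0 (ℓ ^ 2 * T), ∀ x, dt (ℓ ^ 2 * T) V t x =
      (ℓ⁻¹ * ℓ⁻¹ * ℓ⁻¹) • dt T U (t / ℓ ^ 2) (ℓ⁻¹ • (x - x₀)) := by
    intro t ht x
    obtain ⟨y, hy⟩ : ∃ y, y = ℓ⁻¹ • (x - x₀) := ⟨_, rfl⟩
    have h1 : ContDiffOn ℝ ∞ (fun τ : ℝ => U τ y) (Ico 0 T) := by
      have h2 : ContDiffOn ℝ ∞ (fun τ : ℝ => ((τ, y) : ℝ × E3)) (Ico 0 T) :=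
        (contDiff_id.prodMk contDiff_const).contDiffOn
      exact hF.sm.comp h2 (fun τ hτ => ⟨hτ, mem_univ _⟩)
    have h2 : HasDerivWithinAt (fun τ : ℝ => U τ y) (dt T U (t / ℓ ^ 2) y) (Ico 0 T) (t / ℓ ^ 2) :=
      ((h1.differentiableOn (by simp)) _ (hmap t ht)).hasDerivWithinAt
    have h3 : HasDerivWithinAt (fun t : ℝ => t / ℓ ^ 2) (1 / ℓ ^ 2) (Ico 0 (ℓ ^ 2 * T)) t :=
      ((hasDerivAt_id t).div_const (ℓ ^ 2)).hasDerivWithinAt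
    have h4 := (h2.scomp t h3 hmap).const_smul ℓ⁻¹
    have h5 := h4.derivWithin (uniqueDiffOn_Ico 0 (ℓ ^ 2 * T) t ht)
    unfold dt at h5 ⊢
    rw [hV, ← hy]
    simp only [← hy]
    rw [smul_smul] at h5
    have e : ℓ⁻¹ * (1 / ℓ ^ 2) = ℓ⁻¹ * ℓ⁻¹ * ℓ⁻¹ := by
      field_simp
    rw [e] at h5
    exact h5
  have hout : ∀ x : E3, x ∉ Metric.closedBall x₀ (ℓ / 2) → 1 / 2 ≤ ‖ℓ⁻¹ • (x - x₀)‖ := by
    intro x hx
    rw [Metric.mem_closedBall, not_le, dist_eq_norm] at hx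
    rw [norm_smul, norm_inv, Real.norm_of_nonneg hℓ.le, inv_mul_eq_div, le_div_iff₀ hℓ]
    linarith
  refine ⟨by positivity, ?_, ?_, ?_, ?_, ?_, ?_⟩
  · have h1 : ContDiffOn ℝ ∞ (fun z : ℝ × E3 => ((z.1 / ℓ ^ 2, ℓ⁻¹ • (z.2 - x₀)) : ℝ × E3))
        (Ico 0 (ℓ ^ 2 * T) ×ˢ univ) :=
      ((contDiff_fst.div_const _).prodMk ((contDiff_snd.sub contDiff_const).const_smul _)).contDiffOn
    have h2 := (hF.sm.comp h1 (fun z hz => ⟨hmap z.1 hz.1, mem_univ _⟩)).const_smul ℓ⁻¹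
    rw [hV]
    exact h2
  · refine ⟨Metric.closedBall x₀ (ℓ / 2), isCompact_closedBall _ _,
      (Metric.closedBall_subset_closedBall (by linarith)).trans hball, fun t ht x hx => ?_⟩
    rw [hV]
    simp only
    rw [hUout _ (hmap t ht) _ (hout x hx), smul_zero]
  · intro t ht x
    rw [hVsc, divg_sc (hdf _ (hmap t ht)), hF.div _ (hmap t ht), mul_zero]
  · intro t ht i
    rw [hVsc]
    have h1 := ip_sc hℓ x₀ (U (t / ℓ ^ 2)) (r i)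
    rw [hF.con _ (hmap t ht) i, mul_zero] at h1
    exact h1
  · intro t ht v hv
    obtain ⟨τ, hτ⟩ : ∃ τ, τ = t / ℓ ^ 2 := ⟨_, rfl⟩
    have hτm : τ ∈ Ico 0 T := by rw [hτ]; exact hmap t ht
    obtain ⟨W, hW⟩ : ∃ W : E3 → E3,
        W = fun y => dt T U τ y + adv (U τ) (U τ) y - ν • lap (U τ) y := ⟨_, rfl⟩
    have hres : ∀ x, dt (ℓ ^ 2 * T) V t x + adv (V t) (V t) x - ν • lap (V t) x =
        (ℓ⁻¹ * ℓ⁻¹ * ℓ⁻¹) • W (ℓ⁻¹ • (x - x₀)) := by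
      intro x
      rw [hdt t ht, hVsc, adv_sc (hdf _ (hmap t ht)), lap_sc (hsmt _ (hmap t ht)), ← hτ, hW]
      simp only
      generalize ℓ⁻¹ • (x - x₀) = y
      rw [smul_sub, smul_add, smul_comm ν]
    simp only [hres, real_inner_smul_right]
    rw [integral_const_mul, UE.Z05.int_comp hℓ x₀ hΩ.measurableSet]
    obtain ⟨v', hv', hcon⟩ := UE.Z05.exists_field hℓ x₀ hΩ.measurableSet v r hv
    have h1 := hF.res τ hτm v' hcon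
    have h2 : ∫ y, ⟪Ω.indicator v (x₀ + ℓ • y), W y⟫_ℝ = 0 := by
      rw [← h1, ← setIntegral_univ (f := fun y => ⟪Ω.indicator v (x₀ + ℓ • y), W y⟫_ℝ)]
      refine integral_congr_ae ?_
      filter_upwards [hv'] with y hy
      rw [hy, hW]
    rw [h2, mul_zero, mul_zero]
  · intro M
    obtain ⟨τ, hτ, hM⟩ := hF.enst (ℓ * M)
    refine ⟨ℓ ^ 2 * τ, ⟨by have := hτ.1; positivity, mul_lt_mul_of_pos_left hτ.2 hℓ2⟩, ?_⟩
    have e : ℓ ^ 2 * τ / ℓ ^ 2 = τ := by field_simp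
    rw [hVsc, e, dir_sc hℓ x₀ (hdf τ hτ), inv_mul_eq_div, lt_div_iff₀ hℓ]
    linarith [mul_comm ℓ M]

end Pool.Agent.N976.FD
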