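import Pool.Agent.N976.FD.Main
import Pool.Agent.N976.FD.G13
import Pool.Agent.N976.FD.G2
import Pool.Agent.N976.UE.Final

/-! All the steps together. -/

set_option autoImplicit false

namespace Pool.Agent.N976.FD

theorem all : S_G1 ∧ S_G2 ∧ S_G3 := ⟨t_G1, t_G2, t_G3⟩

end Pool.Agent.N976.FD
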