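import Pool.Agent.N976.FD.Def
import Pool.Agent.N976.UE.Main2
import Pool.Agent.N976.DI.Main

/-! Energy concentration for the Dirichlet problem: assembly. -/

open Set Filter Topology MeasureTheory
open scoped ContDiff InnerProductSpace

set_option autoImplicit false

namespace Pool.Agent.N976.FD

open Pool.Agent.N976.SC Pool.Agent.N976.EN Pool.Agent.N976.UE
open Pool.Agent.N976.DI (Flow CSt Con mv cf t_D2 t_D3)
open Pool.Agent.N976.UE.Main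
open H772R2.NS (jac IsTest L2V L2M L2sigma H1graph M3)

section

variable {ε ν β lam N : ℝ} {q Λ b V γ : ℕ → ℝ} {P : ℕ → E3 → E3} {r : Fin 4 × ℕ → E3 → E3}
  {T A : ℝ} {X : ℕ → ℝ → ℝ}

/-- The flow is a flow in the sense of the Dirichlet problem: the enstrophy is unbounded. -/
theorem flowD (hG1 : S_G1) (hZ1 : S_Z1) (hZ2 : S_Z2) (hZ3 : S_Z3)
    (h : Fu ε ν β lam N q Λ b V γ P r T A X) (he : ε ≤ 1 / 8) : Flow univ ν T r (gU P X) := by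
  have hF := flow hZ1 hZ2 hZ3 h
  obtain ⟨e1, -, e3⟩ := energy hZ1 hZ2 hZ3 h
  obtain ⟨h1, h2, h3⟩ := hZ1 T q Λ b V γ β lam N P r X h.T0 h.tab h.q2 h.qq h.smr
  have hN := h.tab.N0
  have hA := h.A0
  have hε := h.ε0
  have hE : 0 < N * A ^ 2 := by positivity
  refine ⟨h.T0, h1, ⟨Metric.closedBall 0 (1 / 2), isCompact_closedBall _ _, subset_univ _, ?_⟩,
    hF.div, hF.con, ?_, ?_⟩
  · intro t ht x hx
    rw [Metric.mem_closedBall, dist_zero_right, not_le] at hx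
    exact (h2 t ht).1 x hx.le
  · intro t ht v hv
    have h4 := hF.res t ht v hv
    simp only [sub_zero] at h4
    exact h4
  · intro M
    obtain ⟨C, hC, hG⟩ := hG1
    obtain ⟨M', hM0, hMM⟩ : ∃ M' : ℝ, 0 < M' ∧ M ≤ M' :=
      ⟨max M 1, by positivity, le_max_left _ _⟩
    obtain ⟨δ, hδ0, hδ⟩ : ∃ δ : ℝ, 0 < δ ∧ C * δ ^ 2 * M' ≤ N * A ^ 2 / 2 := by
      refine ⟨min 1 (N * A ^ 2 / (2 * C * M')), by positivity, ?_⟩
      obtain ⟨s, hs⟩ : ∃ s, s = min 1 (N * A ^ 2 / (2 * C * M')) := ⟨_, rfl⟩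
      rw [← hs]
      have k1 : s ≤ 1 := by rw [hs]; exact min_le_left _ _
      have k2 : s ≤ N * A ^ 2 / (2 * C * M') := by rw [hs]; exact min_le_right _ _
      have k3 : 0 < s := by rw [hs]; positivity
      have k4 : s ^ 2 ≤ s := by nlinarith
      calc C * s ^ 2 * M' ≤ C * (N * A ^ 2 / (2 * C * M')) * M' := by gcongr; linarith
        _ = N * A ^ 2 / 2 := by field_simp
    obtain ⟨t₀, ht0, hout⟩ := e3 δ hδ0
    obtain ⟨t, ht⟩ : ∃ t, t = max t₀ 0 := ⟨_, rfl⟩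
    have ht1 : t₀ ≤ t := by rw [ht]; exact le_max_left _ _
    have ht2 : 0 ≤ t := by rw [ht]; exact le_max_right _ _
    have ht3 : t < T := by rw [ht]; exact max_lt ht0 h.T0
    refine ⟨t, ⟨ht2, ht3⟩, lt_of_le_of_lt hMM ?_⟩
    by_contra hcon
    push Not at hcon
    have hsm : ContDiff ℝ ∞ (gU P X t) := smU hZ1 h ⟨ht2, ht3⟩
    have hcs : HasCompactSupport (gU P X t) := by
      refine HasCompactSupport.of_support_subset_isCompact (isCompact_closedBall 0 (1 / 2)) ?_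
      intro y hy
      rw [Metric.mem_closedBall, dist_zero_right]
      by_contra h'
      exact hy ((h2 t ⟨ht2, ht3⟩).1 y (not_le.1 h').le)
    have k1 := hG (gU P X t) δ (hsm.of_le (by exact_mod_cast le_top)) hcs hδ0
    have k2 : C * δ ^ 2 * dir (gU P X t) ≤ N * A ^ 2 / 2 :=
      (mul_le_mul_of_nonneg_left hcon (by positivity)).trans hδ
    have k3 := hout t ⟨ht1, ht3⟩ ht2
    have k4 := (e1 t ⟨ht2, ht3⟩).1
    have hint : Integrable (fun y => ‖gU P X t y‖ ^ 2) volume := by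
      have : Continuous fun y => ‖gU P X t y‖ ^ 2 := by
        have := hsm.continuous
        fun_prop
      refine this.integrable_of_hasCompactSupport ?_
      exact hcs.comp_left (g := fun z : E3 => ‖z‖ ^ 2) (by simp)
    have k5 : ip (gU P X t) (gU P X t) = (∫ y in Metric.ball (0 : E3) δ, ‖gU P X t y‖ ^ 2) +
        ∫ y in {y : E3 | δ ≤ ‖y‖}, ‖gU P X t y‖ ^ 2 := by
      have e : {y : E3 | δ ≤ ‖y‖} = (Metric.ball (0 : E3) δ)ᶜ := by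
        ext y
        simp only [Set.mem_compl_iff, Metric.mem_ball, dist_zero_right, not_lt]
        rfl
      rw [e, integral_add_compl measurableSet_ball hint]
      unfold ip
      refine integral_congr_ae (ae_of_all _ fun y => ?_)
      exact real_inner_self_eq_norm_sq _
    have k6 : (1 - ε) * (N * A ^ 2) ≤ N * A ^ 2 / 2 + 4 * ε ^ 2 * (N * A ^ 2) := by linarith
    have k7 : 1 - ε ≤ 1 / 2 + 4 * ε ^ 2 := by
      by_contra hc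
      push Not at hc
      nlinarith
    nlinarith

end

theorem main_of (hX : S_X) (hY3 : S_Y3) (hY4 : S_Y4) (hY5 : S_Y5) (hZ0 : S_Z0) (hZ1 : S_Z1)
    (hZ2 : S_Z2) (hZ3 : S_Z3) (hG1 : S_G1) (hG2 : S_G2) (hG3 : S_G3) (ε R₀ : ℝ) (hε : 0 < ε) :
    ∃ (R T₀ : ℝ) (P : E3 → E3) (r : Fin 4 × ℕ → E3 → E3),
      R₀ ≤ R ∧ 1 < R ∧ 0 < T₀ ∧
      ContDiff ℝ ∞ P ∧ (∀ y, 1 ≤ ‖y‖ → P y = 0) ∧ (∀ y, divg P y = 0) ∧
      0 < (∫ y, ‖P y‖ ^ 2) ∧ (∀ p, ContDiff ℝ ∞ (r p)) ∧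
      (∀ i n y, 1 ≤ R ^ ((6 / 5 : ℝ) ^ n) * ‖y‖ → r (i, n) y = 0) ∧
      ∀ (Ω : Set E3) (x₀ : E3) (ℓ ν : ℝ), IsOpen Ω → 0 < ℓ → 0 < ν →
        Metric.closedBall x₀ ℓ ⊆ Ω → ∃ U : ℝ → E3 → E3,
        ContDiffOn ℝ ∞ (fun z : ℝ × E3 => U z.1 z.2) (Ico 0 (ℓ ^ 2 * (T₀ / ν)) ×ˢ univ) ∧
        (∀ x, U 0 x = (ν / ℓ) • P (ℓ⁻¹ • (x - x₀))) ∧
        (∀ t ∈ Ico 0 (ℓ ^ 2 * (T₀ / ν)), ∀ x, ℓ ≤ ‖x - x₀‖ → U t x = 0) ∧
        (∀ T' : ℝ, 0 < T' → T' < ℓ ^ 2 * (T₀ / ν) → ∃ (u u' : ℝ → L2V Ω) (G G' : ℝ → L2M Ω),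
          CSt Ω ν T' (cf x₀ ℓ r) u u' G G' ∧ u 0 =ᵐ[volume.restrict Ω] U 0) ∧
        (∀ (T' : ℝ) (u u' : ℝ → L2V Ω) (G G' : ℝ → L2M Ω), 0 < T' →
          CSt Ω ν T' (cf x₀ ℓ r) u u' G G' → u 0 =ᵐ[volume.restrict Ω] U 0 →
          T' < ℓ ^ 2 * (T₀ / ν) ∧ ∀ t ∈ Icc 0 T', u t =ᵐ[volume.restrict Ω] U t) ∧
        0 < (∫ x, ‖U 0 x‖ ^ 2) ∧
        (∀ t ∈ Ico 0 (ℓ ^ 2 * (T₀ / ν)), (1 - ε) * (∫ x, ‖U 0 x‖ ^ 2) ≤ ∫ x, ‖U t x‖ ^ 2) ∧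
        ∀ δ > 0, ∃ t₀ < ℓ ^ 2 * (T₀ / ν), ∀ t ∈ Ico t₀ (ℓ ^ 2 * (T₀ / ν)), 0 ≤ t →
          ∫ x in {x : E3 | δ ≤ ‖x - x₀‖}, ‖U t x‖ ^ 2 ≤ ε * ∫ x, ‖U 0 x‖ ^ 2 := by
  obtain ⟨Q, T₀, β, lam, ε₁, N, Λ, b, V, γ, P, P', r, he1, he2, he3, hQ4, hR, hR1, hT0, hP, hPo,
    hPd, hPn, hr, hro, h⟩ := pack hX hY3 hY4 hY5 hZ0 hZ1 hZ2 hZ3 ε R₀ hε
  have hnorm : ∀ v : E3 → E3, ip v v = ∫ y, ‖v y‖ ^ 2 := by
    intro v
    unfold ip
    exact integral_congr_ae (ae_of_all _ fun y => real_inner_self_eq_norm_sq _)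
  refine ⟨Q ^ (5 / 3 : ℝ), T₀, P', r, hR, hR1, hT0, hP, fun y hy => hPo y (by linarith), hPd,
    by rw [← hnorm]; exact hPn, hr, hro, fun Ω x₀ ℓ ν hΩ hℓ hν hball => ?_⟩
  obtain ⟨A, X, hD, hu0⟩ := h ν hν
  obtain ⟨e1, e2, e3⟩ := energy hZ1 hZ2 hZ3 hD
  obtain ⟨-, g2, -⟩ := hZ1 (T₀ / ν) (qs Q) Λ b V γ β lam N P r X hD.T0 hD.tab hD.q2 hD.qq hD.smr
  have hN := hD.tab.N0
  have hA := hD.A0
  have hE : 0 < N * A ^ 2 := by positivity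
  have e0 := e1 0 ⟨le_rfl, hD.T0⟩
  have hr1 : ∀ p y, 1 ≤ ‖y‖ → r p y = 0 := by
    rintro ⟨i, n⟩ y hy
    apply hro
    have : (1 : ℝ) ≤ (Q ^ (5 / 3 : ℝ)) ^ ((6 / 5 : ℝ) ^ n) :=
      Real.one_le_rpow hR1.le (by positivity)
    nlinarith
  have hF := hG2 (Fin 4 × ℕ) ν (T₀ / ν) r (gU P X) hν hr hr1 (fun t ht => (g2 t ht).1)
    (flowD hG1 hZ1 hZ2 hZ3 hD he2) Ω x₀ ℓ hℓ hΩ hball
  have hi : 0 < ℓ⁻¹ := inv_pos.2 hℓ
  -- the constraint fields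
  have hcfo : ∀ i x, x ∉ Metric.closedBall x₀ ℓ → cf x₀ ℓ r i x = 0 := by
    intro i x hx
    unfold cf
    apply hr1
    rw [Metric.mem_closedBall, dist_eq_norm, not_le] at hx
    rw [norm_smul, Real.norm_eq_abs, abs_of_pos hi]
    rw [← div_eq_inv_mul, le_div_iff₀ hℓ]
    linarith
  have hcft : ∀ i, tsupport (cf x₀ ℓ r i) ⊆ Metric.closedBall x₀ ℓ := fun i =>
    closure_minimal (fun x hx => by
      by_contra hcon
      exact hx (hcfo i x hcon)) Metric.isClosed_closedBall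
  have hcfk : ∀ i, HasCompactSupport (cf x₀ ℓ r i) := fun i =>
    HasCompactSupport.intro (isCompact_closedBall x₀ ℓ) (hcfo i)
  have hcfc : ∀ i, Continuous (cf x₀ ℓ r i) := by
    intro i
    unfold cf
    exact (hr i).continuous.comp (by fun_prop)
  have hT1 : 0 < ℓ ^ 2 * (T₀ / ν) := hF.T0
  have hmap : ∀ t ∈ Ico 0 (ℓ ^ 2 * (T₀ / ν)), t / ℓ ^ 2 ∈ Ico 0 (T₀ / ν) := by
    intro t ht
    refine ⟨by have := ht.1; positivity, ?_⟩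
    rw [div_lt_iff₀ (by positivity), mul_comm]
    exact ht.2
  have hsc : ∀ t, ∫ x, ‖ℓ⁻¹ • gU P X (t / ℓ ^ 2) (ℓ⁻¹ • (x - x₀))‖ ^ 2 =
      ℓ * ip (gU P X (t / ℓ ^ 2)) (gU P X (t / ℓ ^ 2)) := fun t =>
    (hG3 (gU P X (t / ℓ ^ 2)) x₀ ℓ 0 hℓ).2
  refine ⟨fun t x => ℓ⁻¹ • gU P X (t / ℓ ^ 2) (ℓ⁻¹ • (x - x₀)), hF.sm, ?_, ?_, ?_, ?_, ?_, ?_, ?_⟩
  · intro x
    simp only [zero_div]
    rw [hu0, smul_smul]
    congr 1
    ring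
  · intro t ht x hx
    have h1 : 1 ≤ ‖ℓ⁻¹ • (x - x₀)‖ := by
      rw [norm_smul, Real.norm_eq_abs, abs_of_pos hi, ← div_eq_inv_mul, le_div_iff₀ hℓ]
      linarith
    show ℓ⁻¹ • gU P X (t / ℓ ^ 2) (ℓ⁻¹ • (x - x₀)) = 0
    rw [(g2 _ (hmap t ht)).1 _ (by linarith), smul_zero]
  · intro T' hT' hT'T
    obtain ⟨v, v', G, G', h1, h2⟩ := t_D2 _ Ω ν _ T' _ _ hΩ hν hcfc hcfk
      (fun i => (hcft i).trans hball) hF hT' hT'T
    exact ⟨v, v', G, G', h1, h2 0 ⟨le_rfl, hT'.le⟩⟩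
  · intro T' v v' G G' hT' hv hv0
    have h1 := DI.D1.t_D1 _ Ω ν _ T' _ _ v v' G G' hΩ hν hcfc hcfk
      (fun i => (hcft i).trans hball) hF hv hT' hv0
    have h2 : T' < ℓ ^ 2 * (T₀ / ν) := by
      by_contra hcon
      push Not at hcon
      exact t_D3 _ Ω ν _ T' _ _ v v' G G' hΩ hF hv hcon fun t ht htT => (h1 t ht htT).2
    exact ⟨h2, fun t ht => (h1 t ht (ht.2.trans_lt h2)).1⟩
  · rw [hsc, zero_div]
    have k1 : 0 < (1 - ε₁) * (N * A ^ 2) := by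
      have : 0 < 1 - ε₁ := by linarith
      positivity
    exact mul_pos hℓ (k1.trans_le e0.1)
  · intro t ht
    rw [hsc, hsc, zero_div]
    have k1 := e1 _ (hmap t ht)
    have k2 := e2 _ (hmap t ht)
    have k3 : 2 * (ν * ∫ s in (0 : ℝ)..(t / ℓ ^ 2), dir (gU P X s)) ≤ 2 * ε₁ * (N * A ^ 2) := by
      rw [k2.2]
      linarith [e0.2, k1.1]
    have k4 : (1 - ε) * ip (gU P X 0) (gU P X 0) ≤
        ip (gU P X (t / ℓ ^ 2)) (gU P X (t / ℓ ^ 2)) := by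
      have k5 : 2 * ε₁ * (N * A ^ 2) ≤ ε * ip (gU P X 0) (gU P X 0) := by
        have k6 : 8 * ε₁ * ((1 - ε₁) * (N * A ^ 2)) ≤ ε * ip (gU P X 0) (gU P X 0) :=
          mul_le_mul he3 e0.1 (by have : 0 ≤ 1 - ε₁ := by linarith
                                  positivity) (by linarith)
        have : 0 < ε₁ * (N * A ^ 2) := by positivity
        nlinarith
      have k7 := k2.2
      linarith
    calc (1 - ε) * (ℓ * ip (gU P X 0) (gU P X 0)) = ℓ * ((1 - ε) * ip (gU P X 0) (gU P X 0)) := by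
          ring
      _ ≤ ℓ * ip (gU P X (t / ℓ ^ 2)) (gU P X (t / ℓ ^ 2)) :=
          mul_le_mul_of_nonneg_left k4 hℓ.le
  · intro δ hδ
    obtain ⟨t₀, k1, k2⟩ := e3 (δ / ℓ) (by positivity)
    refine ⟨ℓ ^ 2 * t₀, mul_lt_mul_of_pos_left k1 (by positivity), fun t ht h0 => ?_⟩
    have k3 := hG3 (gU P X (t / ℓ ^ 2)) x₀ ℓ δ hℓ
    have k4 : t / ℓ ^ 2 ∈ Ico t₀ (T₀ / ν) := by
      refine ⟨?_, (hmap t ⟨h0, ht.2⟩).2⟩
      rw [le_div_iff₀ (by positivity), mul_comm]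
      exact ht.1
    have k5 := k2 _ k4 (by positivity)
    rw [hsc 0, zero_div]
    refine k3.1.le.trans ?_
    have k6 : 4 * ε₁ ^ 2 * (N * A ^ 2) ≤ ε * ip (gU P X 0) (gU P X 0) := by
      have k7 : 8 * ε₁ * ((1 - ε₁) * (N * A ^ 2)) ≤ ε * ip (gU P X 0) (gU P X 0) :=
        mul_le_mul he3 e0.1 (by have : 0 ≤ 1 - ε₁ := by linarith
                                positivity) (by linarith)
      have : 0 < ε₁ * (N * A ^ 2) := by positivity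
      nlinarith
    calc ℓ * ∫ y in {y : E3 | δ / ℓ ≤ ‖y‖}, ‖gU P X (t / ℓ ^ 2) y‖ ^ 2
        ≤ ℓ * (4 * ε₁ ^ 2 * (N * A ^ 2)) := mul_le_mul_of_nonneg_left k5 hℓ.le
      _ ≤ ℓ * (ε * ip (gU P X 0) (gU P X 0)) := mul_le_mul_of_nonneg_left k6 hℓ.le
      _ = ε * (ℓ * ip (gU P X 0) (gU P X 0)) := by ring

end Pool.Agent.N976.FD
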